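import Mathlib

/-!
Relation algebras, the algebras of compatible relations of a `G`-set, and a representation theorem.
-/

set_option autoImplicit false
set_option linter.unusedSectionVars false

namespace Pool.Agent.H313RA

/-- Relation algebras in the sense of Tarski. -/
class RelAlg (B : Type) extends BooleanAlgebra B where
  /-- composition `x ; y` -/
  comp : B → B → B
  /-- converse -/
  conv : B → B
  /-- the identity element -/
  ide : B
  comp_assoc : ∀ x y z, comp (comp x y) z = comp x (comp y z)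
  comp_ide : ∀ x, comp x ide = x
  conv_conv : ∀ x, conv (conv x) = x
  conv_comp : ∀ x y, conv (comp x y) = comp (conv y) (conv x)
  sup_comp : ∀ x y z, comp (x ⊔ y) z = comp x z ⊔ comp y z
  conv_sup : ∀ x y, conv (x ⊔ y) = conv x ⊔ conv y
  tarski : ∀ x y, comp (conv x) (comp x y)ᶜ ≤ yᶜ

open RelAlg

section basic

variable {B : Type} [RelAlg B]

theorem comp_mono_left {x y : B} (h : x ≤ y) (z : B) : comp x z ≤ comp y z := by
  have := sup_comp x y z
  rw [sup_eq_right.2 h] at this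
  rw [this]
  exact le_sup_left

theorem conv_mono {x y : B} (h : x ≤ y) : conv x ≤ conv y := by
  have := conv_sup x y
  rw [sup_eq_right.2 h] at this
  rw [this]
  exact le_sup_left

theorem comp_sup (x y z : B) : comp x (y ⊔ z) = comp x y ⊔ comp x z := by
  have h := sup_comp (conv y) (conv z) (conv x)
  rw [← conv_sup, ← conv_comp, ← conv_comp, ← conv_comp, ← conv_sup] at h
  have := congrArg conv h
  rwa [conv_conv, conv_conv] at this

theorem comp_mono_right {y z : B} (h : y ≤ z) (x : B) : comp x y ≤ comp x z := by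
  have := comp_sup x y z
  rw [sup_eq_right.2 h] at this
  rw [this]
  exact le_sup_left

theorem comp_mono {x y z w : B} (h : x ≤ y) (h' : z ≤ w) : comp x z ≤ comp y w :=
  (comp_mono_left h z).trans (comp_mono_right h' y)

theorem conv_bot : conv (⊥ : B) = ⊥ := by
  have h : conv (⊥ : B) ≤ conv (conv ⊥) := conv_mono bot_le
  rw [conv_conv] at h
  exact le_bot_iff.1 h

theorem conv_top : conv (⊤ : B) = ⊤ := by
  have h : conv (conv (⊤ : B)) ≤ conv ⊤ := conv_mono le_top
  rw [conv_conv] at h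
  exact top_le_iff.1 h

theorem conv_ide : conv (ide : B) = ide := by
  have h : comp (conv ide) ide = (conv ide : B) := comp_ide _
  have h2 := congrArg conv h
  rw [conv_comp, conv_conv] at h2
  rw [comp_ide] at h2
  exact h2

theorem ide_comp (x : B) : comp ide x = x := by
  have h := comp_ide (conv x)
  have h2 := congrArg conv h
  rwa [conv_comp, conv_conv, conv_ide] at h2

theorem conv_inf (x y : B) : conv (x ⊓ y) = conv x ⊓ conv y := by
  refine le_antisymm (le_inf (conv_mono inf_le_left) (conv_mono inf_le_right)) ?_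
  have h : conv (conv x ⊓ conv y) ≤ x ⊓ y := by
    refine le_inf ?_ ?_
    · have := conv_mono (inf_le_left : conv x ⊓ conv y ≤ conv x)
      rwa [conv_conv] at this
    · have := conv_mono (inf_le_right : conv x ⊓ conv y ≤ conv y)
      rwa [conv_conv] at this
  have := conv_mono h
  rwa [conv_conv] at this

theorem conv_eq_bot {x : B} : conv x = ⊥ ↔ x = ⊥ := by
  constructor
  · intro h
    have := congrArg conv h
    rwa [conv_conv, conv_bot] at this
  · rintro rfl
    exact conv_bot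

/-- cyclic law -/
theorem cyc1 {x y z : B} (h : comp x y ⊓ z = ⊥) : comp (conv x) z ⊓ y = ⊥ := by
  have h1 : z ≤ (comp x y)ᶜ := by
    rw [le_compl_iff_disjoint_left, disjoint_iff]
    exact h
  have h2 : comp (conv x) z ≤ yᶜ := (comp_mono_right h1 _).trans (tarski x y)
  rw [← disjoint_iff]
  exact le_compl_iff_disjoint_right.1 h2

theorem cyc2 {x y z : B} (h : comp x y ⊓ z = ⊥) : comp z (conv y) ⊓ x = ⊥ := by
  have h1 : comp (conv y) (conv x) ⊓ conv z = ⊥ := by
    rw [← conv_comp, ← conv_inf, h, conv_bot]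
  have h2 := cyc1 h1
  rw [conv_conv] at h2
  have h3 := congrArg conv h2
  rwa [conv_inf, conv_comp, conv_conv, conv_conv, conv_bot] at h3

theorem cyc1' {x y z : B} : comp (conv x) z ⊓ y ≠ ⊥ → comp x y ⊓ z ≠ ⊥ := fun h h' => h (cyc1 h')

theorem cyc2' {x y z : B} : comp z (conv y) ⊓ x ≠ ⊥ → comp x y ⊓ z ≠ ⊥ := fun h h' => h (cyc2 h')

theorem bot_comp (x : B) : comp ⊥ x = ⊥ := by
  have h : comp (⊥ : B) (conv x) ⊓ ⊤ ≤ ⊤ := le_top
  have h1 : comp (⊤ : B) x ⊓ ⊥ = ⊥ := inf_bot_eq _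
  have h2 : comp (⊤ : B) (conv x) ⊓ ⊥ = ⊥ := inf_bot_eq _
  have h3 := cyc2 h2
  rw [conv_conv, inf_top_eq] at h3
  exact h3

theorem comp_bot (x : B) : comp x ⊥ = ⊥ := by
  have h2 : comp (conv x) (⊤ : B) ⊓ ⊥ = ⊥ := inf_bot_eq _
  have h3 := cyc1 h2
  rwa [conv_conv, inf_top_eq] at h3

theorem IsAtom.le_or {s : B} (hs : IsAtom s) (x : B) : s ≤ x ∨ s ⊓ x = ⊥ := by
  rcases hs.le_iff.1 (inf_le_left : s ⊓ x ≤ s) with h | h
  · exact Or.inr h
  · exact Or.inl (by rw [← h]; exact inf_le_right)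

theorem IsAtom.le_of {s : B} (hs : IsAtom s) {x : B} (h : x ⊓ s ≠ ⊥) : s ≤ x := by
  rcases IsAtom.le_or hs x with h1 | h1
  · exact h1
  · rw [inf_comm] at h1
    exact absurd h1 h

theorem IsAtom.ne_of_le {s : B} (hs : IsAtom s) {x : B} (h : s ≤ x) : x ⊓ s ≠ ⊥ := by
  rw [inf_eq_right.2 h]
  exact hs.1

theorem IsAtom.le_sup' {s : B} (hs : IsAtom s) {x y : B} (h : s ≤ x ⊔ y) : s ≤ x ∨ s ≤ y := by
  rcases IsAtom.le_or hs x with h1 | h1
  · exact Or.inl h1
  · right
    have : s = s ⊓ (x ⊔ y) := (inf_eq_left.2 h).symm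
    rw [inf_sup_left, h1, bot_sup_eq] at this
    rw [this]
    exact inf_le_right

/-- `x ≤ 1'` -/
theorem sub_comp {x y : B} (hx : x ≤ ide) : comp x y ≤ y := by
  have := comp_mono_left hx y
  rwa [ide_comp] at this

theorem comp_sub {x y : B} (hx : x ≤ ide) : comp y x ≤ y := by
  have := comp_mono_right hx y
  rwa [comp_ide] at this

variable {e : B}

theorem sub_self (he : e ≤ ide) : comp e e = e := by
  refine le_antisymm (sub_comp he) ?_
  -- e = 1' ; e = e ; e + e' ; e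
  have h1 : ide = e ⊔ (ide ⊓ eᶜ) := by
    rw [sup_inf_left, sup_compl_eq_top, inf_top_eq]
    exact (sup_eq_right.2 he).symm
  have h2 : comp (ide ⊓ eᶜ) e ≤ ⊥ := by
    have a1 : comp (ide ⊓ eᶜ) e ≤ e := sub_comp inf_le_left
    have a2 : comp (ide ⊓ eᶜ) e ≤ eᶜ := (comp_sub he).trans inf_le_right
    have := le_inf a1 a2
    rwa [inf_compl_eq_bot] at this
  have h3 : e = comp ide e := (ide_comp e).symm
  have h4 : comp ide e = comp e e ⊔ comp (ide ⊓ eᶜ) e := by
    rw [← sup_comp, ← h1]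
  rw [h4, le_bot_iff.1 h2, sup_bot_eq] at h3
  exact h3.le

theorem comp_of_le (he : e ≤ ide) {r : B} (hr : r ≤ comp e ⊤) : comp e r = r := by
  refine le_antisymm (sub_comp he) ?_
  have h1 : ide = e ⊔ (ide ⊓ eᶜ) := by
    rw [sup_inf_left, sup_compl_eq_top, inf_top_eq]
    exact (sup_eq_right.2 he).symm
  have h2 : comp (ide ⊓ eᶜ) r ≤ ⊥ := by
    refine (comp_mono_right hr _).trans ?_
    rw [← comp_assoc]
    have a1 : comp (ide ⊓ eᶜ) e ≤ e := sub_comp inf_le_left
    have a2 : comp (ide ⊓ eᶜ) e ≤ eᶜ := (comp_sub he).trans inf_le_right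
    have := le_inf a1 a2
    rw [inf_compl_eq_bot, le_bot_iff] at this
    rw [this, bot_comp]
  have h3 : r = comp ide r := (ide_comp r).symm
  have h4 : comp ide r = comp e r ⊔ comp (ide ⊓ eᶜ) r := by
    rw [← sup_comp, ← h1]
  rw [h4, le_bot_iff.1 h2, sup_bot_eq] at h3
  exact h3.le

end basic

/-- `B` is simple. -/
def Simple (B : Type) [RelAlg B] : Prop := ∀ x : B, x ≠ ⊥ → comp (comp ⊤ x) ⊤ = ⊤

/-- `B` is atomic. -/
def Atomic (B : Type) [RelAlg B] : Prop := ∀ x : B, x ≠ ⊥ → ∃ a, IsAtom a ∧ a ≤ x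

/-- `B` is complete: every set of elements has a least upper bound. -/
def Complete (B : Type) [RelAlg B] : Prop := ∀ S : Set B, ∃ b, IsLUB S b

/-- Powers of `g` with `g ^ 0 = e`. -/
def pw {B : Type} [RelAlg B] (e g : B) : ℕ → B
  | 0 => e
  | n + 1 => comp (pw e g n) g

/-- The sum of the first `n` powers. -/
def sm {B : Type} [RelAlg B] (e g : B) : ℕ → B
  | 0 => ⊥
  | n + 1 => sm e g n ⊔ pw e g n

/-- The conditions on `e` and `g`. -/
structure Base (B : Type) [RelAlg B] (p : ℕ) (e g : B) : Prop where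
  atom : IsAtom e
  le : e ≤ ide
  g1 : comp g (conv g) = e
  g2 : comp (conv g) g = e
  gp : pw e g p = e
  full : comp (comp e ⊤) e = sm e g p
  fn : ∀ r : B, IsAtom r → r ≤ comp e ⊤ → comp (conv r) r ≤ ide

/-- The compatible relations on the `G`-set `A`. -/
def Rel (G A : Type) [Group G] [MulAction G A] : Type :=
  {R : Set (A × A) // ∀ (g : G) (x y : A), (x, y) ∈ R → (g • x, g • y) ∈ R}

section Rel

variable {G A : Type} [Group G] [MulAction G A]

theorem Rel.iff (R : Rel G A) (g : G) (x y : A) : (g • x, g • y) ∈ R.1 ↔ (x, y) ∈ R.1 := by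
  constructor
  · intro h
    have := R.2 g⁻¹ _ _ h
    rwa [inv_smul_smul, inv_smul_smul] at this
  · exact R.2 g x y

theorem Rel.ext' {R S : Rel G A} (h : ∀ x y, (x, y) ∈ R.1 ↔ (x, y) ∈ S.1) : R = S := by
  apply Subtype.ext
  ext ⟨x, y⟩
  exact h x y

instance : LE (Rel G A) := ⟨fun R S => R.1 ⊆ S.1⟩
instance : LT (Rel G A) := ⟨fun R S => R.1 < S.1⟩
instance : Max (Rel G A) := ⟨fun R S => ⟨R.1 ∪ S.1, fun g x y h => h.imp (R.2 g x y) (S.2 g x y)⟩⟩
instance : Min (Rel G A) := ⟨fun R S => ⟨R.1 ∩ S.1, fun g x y h => ⟨R.2 g x y h.1, S.2 g x y h.2⟩⟩⟩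
instance : Top (Rel G A) := ⟨⟨Set.univ, fun _ _ _ _ => trivial⟩⟩
instance : Bot (Rel G A) := ⟨⟨∅, fun _ _ _ h => h.elim⟩⟩
instance : Compl (Rel G A) := ⟨fun R => ⟨R.1ᶜ, fun g x y h h' => h ((R.iff g x y).1 h')⟩⟩
instance : SDiff (Rel G A) :=
  ⟨fun R S => ⟨R.1 \ S.1, fun g x y h => ⟨R.2 g x y h.1, fun h' => h.2 ((S.iff g x y).1 h')⟩⟩⟩
instance : HImp (Rel G A) :=
  ⟨fun R S => ⟨R.1 ⇨ S.1, fun g x y h h' => S.2 g x y (h ((R.iff g x y).1 h'))⟩⟩

instance : BooleanAlgebra (Rel G A) :=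
  Function.Injective.booleanAlgebra (fun R : Rel G A => R.1) Subtype.val_injective
    (fun {_ _} => Iff.rfl) (fun {_ _} => Iff.rfl) (fun _ _ => rfl) (fun _ _ => rfl) rfl rfl
    (fun _ => rfl) (fun _ _ => rfl) (fun _ _ => rfl)

/-- The relation algebra of the compatible relations: union, intersection, complement, composition
`{(x, z) | ∃ y, (x, y) ∈ R ∧ (y, z) ∈ S}`, converse and the identity relation. -/
instance : RelAlg (Rel G A) where
  comp R S := ⟨{w | ∃ y, (w.1, y) ∈ R.1 ∧ (y, w.2) ∈ S.1}, by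
    rintro g x z ⟨y, h1, h2⟩
    exact ⟨g • y, R.2 g _ _ h1, S.2 g _ _ h2⟩⟩
  conv R := ⟨{w | (w.2, w.1) ∈ R.1}, fun g x y h => R.2 g y x h⟩
  ide := ⟨{w | w.1 = w.2}, fun g x y h => congrArg (g • ·) h⟩
  comp_assoc R S T := by
    refine Rel.ext' fun x w => ?_
    constructor
    · rintro ⟨z, ⟨y, h1, h2⟩, h3⟩
      exact ⟨y, h1, z, h2, h3⟩
    · rintro ⟨y, h1, z, h2, h3⟩
      exact ⟨z, ⟨y, h1, h2⟩, h3⟩
  comp_ide R := by
    refine Rel.ext' fun x z => ?_
    constructor
    · rintro ⟨y, h1, h2⟩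
      have h2' : y = z := h2
      rwa [← h2']
    · intro h
      exact ⟨z, h, rfl⟩
  conv_conv R := rfl
  conv_comp R S := by
    refine Rel.ext' fun x z => ?_
    constructor
    · rintro ⟨y, h1, h2⟩
      exact ⟨y, h2, h1⟩
    · rintro ⟨y, h1, h2⟩
      exact ⟨y, h2, h1⟩
  sup_comp R S T := by
    refine Rel.ext' fun x z => ?_
    constructor
    · rintro ⟨y, h1 | h1, h2⟩
      · exact Or.inl ⟨y, h1, h2⟩
      · exact Or.inr ⟨y, h1, h2⟩
    · rintro (⟨y, h1, h2⟩ | ⟨y, h1, h2⟩)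
      · exact ⟨y, Or.inl h1, h2⟩
      · exact ⟨y, Or.inr h1, h2⟩
  conv_sup R S := rfl
  tarski R S := by
    rintro ⟨x, z⟩ ⟨y, h1, h2⟩ h3
    exact h2 ⟨x, h1, h3⟩

end Rel

/-- `B` is isomorphic to the relation algebra of the compatible relations of some nonempty set with an
action of the cyclic group of order `p` (an order isomorphism preserves the Boolean operations). -/
def InK (p : ℕ) (B : Type) [RelAlg B] : Prop :=
  ∃ (A : Type) (_ : Nonempty A) (_ : MulAction (Multiplicative (ZMod p)) A)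
    (f : B ≃o Rel (Multiplicative (ZMod p)) A),
    (∀ x y, f (comp x y) = comp (f x) (f y)) ∧ (∀ x, f (conv x) = conv (f x)) ∧ f ide = ide

/-- `B` is isomorphic to a subalgebra, containing all the atoms, of the relation algebra of the
compatible relations of some nonempty set with an action of the cyclic group of order `p`. -/
def InStar (p : ℕ) (B : Type) [RelAlg B] : Prop :=
  ∃ (A : Type) (_ : Nonempty A) (_ : MulAction (Multiplicative (ZMod p)) A)
    (f : B → Rel (Multiplicative (ZMod p)) A), Function.Injective f ∧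
    (∀ x y, f (x ⊔ y) = f x ⊔ f y) ∧ (∀ x, f xᶜ = (f x)ᶜ) ∧
    (∀ x y, f (comp x y) = comp (f x) (f y)) ∧ (∀ x, f (conv x) = conv (f x)) ∧ f ide = ide ∧
    ∀ R, IsAtom R → ∃ b, f b = R

end Pool.Agent.H313RA
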