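import Mathlib
import Pool.Agent.H313RA.Basic

/-!
The representation theorem.
-/

set_option autoImplicit false
set_option linter.unusedSectionVars false

namespace Pool.Agent.H313RA

open RelAlg

variable {B : Type} [RelAlg B] {p : ℕ} {e g : B}

theorem Base.ee (h : Base B p e g) : comp e e = e := sub_self h.le

theorem Base.conv_e (h : Base B p e g) : conv e = e := by
  have := congrArg conv h.g1
  rw [conv_comp, conv_conv, h.g1] at this
  exact this.symm

theorem Base.eg (h : Base B p e g) : comp e g = g := by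
  have h1 : g ≤ comp e ⊤ := by
    by_contra hc
    -- g' = g ⊓ (e;1)ᶜ is nonzero, and g ; g˘ ≤ e
    have h2 : comp g (conv g) ≤ e := h.g1.le
    have hne : g ⊓ (comp e ⊤)ᶜ ≠ ⊥ := by
      intro h0
      exact hc (by rw [← compl_compl (comp e ⊤), le_compl_iff_disjoint_right, disjoint_iff]; exact h0)
    -- x ≤ x ; x˘ ; x
    have h3 : comp g (conv g) ⊓ ide ≠ ⊥ → True := fun _ => trivial
    have h4 : comp (conv g) (g ⊓ (comp e ⊤)ᶜ) ≠ ⊥ := by
      intro h0
      have h5 : comp (conv g) (g ⊓ (comp e ⊤)ᶜ) ⊓ ide = ⊥ := by rw [h0, bot_inf_eq]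
      have h6 := cyc1 h5
      rw [conv_conv, comp_ide] at h6
      apply hne
      rw [← h6]
      exact (inf_eq_right.2 inf_le_left).symm
    have h7 : comp e (comp g (comp (conv g) (g ⊓ (comp e ⊤)ᶜ))) = ⊥ → False := by
      intro h0
      rw [← comp_assoc g, h.g1, ← comp_assoc, h.ee] at h0
      -- e ; g' = 0, but g' ≤ g ; g˘ ; g'
      have h8 : comp g (comp (conv g) (g ⊓ (comp e ⊤)ᶜ)) = ⊥ := by
        rw [← comp_assoc, h.g1, h0]
      have h9 : comp g (comp (conv g) (g ⊓ (comp e ⊤)ᶜ)) ⊓ (g ⊓ (comp e ⊤)ᶜ) = ⊥ := by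
        rw [h8, bot_inf_eq]
      have h10 := cyc1 h9
      rw [inf_idem] at h10
      exact h4 h10
    apply h7
    rw [← comp_assoc g, h.g1]
    have h11 : comp e (comp e (g ⊓ (comp e ⊤)ᶜ)) ≤ ⊥ := by
      rw [← comp_assoc, h.ee]
      have a1 : comp e (g ⊓ (comp e ⊤)ᶜ) ≤ comp e ⊤ := comp_mono_right le_top _
      have a2 : comp e (g ⊓ (comp e ⊤)ᶜ) ≤ (comp e ⊤)ᶜ := (sub_comp h.le).trans inf_le_right
      have := le_inf a1 a2
      rwa [inf_compl_eq_bot] at this
    exact le_bot_iff.1 h11
  exact comp_of_le h.le h1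

theorem Base.pw_comm (h : Base B p e g) (n : ℕ) : comp g (pw e g n) = comp (pw e g n) g := by
  induction n with
  | zero =>
    show comp g e = comp e g
    rw [h.eg, ← h.g2, ← comp_assoc, h.g1, h.eg]
  | succ n ih =>
    show comp g (comp (pw e g n) g) = comp (comp (pw e g n) g) g
    rw [← comp_assoc, ih]

theorem Base.ge (h : Base B p e g) : comp g e = g := by
  have := h.pw_comm 0
  rw [show pw e g 0 = e from rfl] at this
  rw [this, h.eg]

theorem Base.pw_e (h : Base B p e g) (n : ℕ) : comp (pw e g n) e = pw e g n := by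
  cases n with
  | zero => exact h.ee
  | succ n =>
    show comp (comp (pw e g n) g) e = comp (pw e g n) g
    rw [comp_assoc, h.ge]

theorem Base.pw_add (h : Base B p e g) (m n : ℕ) :
    comp (pw e g m) (pw e g n) = pw e g (m + n) := by
  induction n with
  | zero => exact h.pw_e m
  | succ n ih =>
    show comp (pw e g m) (comp (pw e g n) g) = comp (pw e g (m + n)) g
    rw [← comp_assoc, ih]

theorem Base.pw_add_p (h : Base B p e g) (m : ℕ) : pw e g (m + p) = pw e g m := by
  rw [← h.pw_add, h.gp, h.pw_e]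

theorem Base.pw_mod (h : Base B p e g) (m : ℕ) : pw e g (m % p) = pw e g m := by
  conv_rhs => rw [← Nat.mod_add_div m p]
  generalize m / p = k
  induction k with
  | zero => rfl
  | succ k ih => rw [Nat.mul_succ, ← add_assoc, h.pw_add_p, ih]

theorem le_sm {e g : B} {n : ℕ} {r : B} (hr : r ≤ sm e g n) (hr0 : r ≠ ⊥) :
    ∃ i, i < n ∧ r ⊓ pw e g i ≠ ⊥ := by
  induction n with
  | zero => exact absurd (le_bot_iff.1 hr) hr0
  | succ n ih =>
    by_cases h1 : r ⊓ pw e g n = ⊥
    · have h2 : r ≤ sm e g n := by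
        have h3 : r ≤ sm e g n ⊔ pw e g n := hr
        have h4 : Disjoint r (pw e g n) := disjoint_iff.2 h1
        exact Disjoint.left_le_of_le_sup_right h3 h4
      obtain ⟨i, hi, hr⟩ := ih h2
      exact ⟨i, by omega, hr⟩
    · exact ⟨n, by omega, h1⟩

/-- The points of the representation. -/
def Pt (B : Type) [RelAlg B] (e : B) : Type := {r : B // IsAtom r ∧ r ≤ comp e ⊤}

theorem Base.er (h : Base B p e g) (r : Pt B e) : comp e r.1 = r.1 := comp_of_le h.le r.2.2

theorem Base.rr (h : Base B p e g) (r : Pt B e) : e ≤ comp r.1 (conv r.1) := by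
  refine IsAtom.le_of h.atom ?_
  refine cyc2' ?_
  rw [conv_conv, h.er, inf_idem]
  exact r.2.1.1

theorem Base.smul_atom (h : Base B p e g) (r : Pt B e) :
    IsAtom (comp g r.1) ∧ comp g r.1 ≤ comp e ⊤ := by
  have hle : comp g r.1 ≤ comp e ⊤ := by
    have : comp g r.1 = comp e (comp g r.1) := by rw [← comp_assoc, h.eg]
    rw [this]
    exact comp_mono_right le_top _
  have hne : comp (conv g) (comp g r.1) = r.1 := by rw [← comp_assoc, h.g2, h.er]
  refine ⟨⟨?_, ?_⟩, hle⟩
  · intro h0
    rw [h0, comp_bot] at hne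
    exact r.2.1.1 hne.symm
  · intro x hx
    have hx1 : comp (conv g) x ≤ r.1 := by
      rw [← hne]
      exact comp_mono_right hx.le _
    have hx2 : comp g (comp (conv g) x) = x := by
      rw [← comp_assoc, h.g1]
      exact comp_of_le h.le (hx.le.trans hle)
    rcases r.2.1.le_iff.1 hx1 with h1 | h1
    · rw [h1, comp_bot] at hx2
      exact hx2.symm
    · rw [h1] at hx2
      exact absurd hx2.symm hx.ne

theorem Base.pw_atom (h : Base B p e g) (r : Pt B e) (n : ℕ) :
    IsAtom (comp (pw e g n) r.1) ∧ comp (pw e g n) r.1 ≤ comp e ⊤ := by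
  induction n with
  | zero =>
    show IsAtom (comp e r.1) ∧ comp e r.1 ≤ comp e ⊤
    rw [h.er]
    exact r.2
  | succ n ih =>
    have h1 := h.smul_atom ⟨_, ih⟩
    have h2 : comp g (comp (pw e g n) r.1) = comp (pw e g (n + 1)) r.1 := by
      rw [← comp_assoc, h.pw_comm]
      rfl
    rw [← h2]
    exact h1

/-- The action of the cyclic group. -/
@[reducible] noncomputable def Base.action (h : Base B p e g) [NeZero p] :
    MulAction (Multiplicative (ZMod p)) (Pt B e) where
  smul k r := ⟨comp (pw e g (Multiplicative.toAdd k).val) r.1, h.pw_atom r _⟩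
  one_smul r := by
    apply Subtype.ext
    show comp (pw e g (0 : ZMod p).val) r.1 = r.1
    rw [ZMod.val_zero]
    exact h.er r
  mul_smul k l r := by
    apply Subtype.ext
    show comp (pw e g (Multiplicative.toAdd k + Multiplicative.toAdd l).val) r.1 =
      comp (pw e g (Multiplicative.toAdd k).val) (comp (pw e g (Multiplicative.toAdd l).val) r.1)
    rw [ZMod.val_add, h.pw_mod, ← comp_assoc, h.pw_add]

/-- comp of a function distributes -/
theorem Base.fn_inf (h : Base B p e g) (r : Pt B e) (b : B) : comp r.1 b ⊓ comp r.1 bᶜ = ⊥ := by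
  have h1 : comp (conv r.1) (comp r.1 bᶜ) ⊓ b = ⊥ := by
    have h2 : comp (conv r.1) (comp r.1 bᶜ) ≤ bᶜ := by
      rw [← comp_assoc]
      exact sub_comp (h.fn r.1 r.2.1 r.2.2)
    have := inf_le_inf_right b h2
    rwa [compl_inf_eq_bot, le_bot_iff] at this
  have h2 := cyc1 h1
  rw [conv_conv] at h2
  exact h2

theorem Base.comp_le (h : Base B p e g) (r : Pt B e) (b : B) : comp r.1 b ≤ comp e ⊤ := by
  rw [← h.er r, comp_assoc]
  exact comp_mono_right le_top _

theorem star_of_base (hS : Simple B) (hA : Atomic B) [NeZero p]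
    (h : Base B p e g) : InStar p B := by
  let _ := h.action
  have hsm : ∀ (k : Multiplicative (ZMod p)) (r : Pt B e),
      (k • r).1 = comp (pw e g (Multiplicative.toAdd k).val) r.1 := fun k r => rfl
  -- the representation
  let F : B → Rel (Multiplicative (ZMod p)) (Pt B e) := fun b =>
    ⟨{w | w.2.1 ≤ comp w.1.1 b}, fun k r s hrs => by
      show (k • s).1 ≤ comp (k • r).1 b
      rw [hsm, hsm, comp_assoc]
      exact comp_mono_right hrs _⟩
  have hF : ∀ b (r s : Pt B e), (r, s) ∈ (F b).1 ↔ s.1 ≤ comp r.1 b := fun b r s => Iff.rfl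
  have hmono : ∀ b c, b ≤ c → F b ≤ F c := fun b c hbc w hw =>
    le_trans (b := comp w.1.1 b) hw (comp_mono_right hbc _)
  have hne : ∀ b : B, b ≠ ⊥ → ∃ r s : Pt B e, (r, s) ∈ (F b).1 := by
    intro b hb
    have h1 : comp (comp e ⊤) b ≠ ⊥ := by
      intro h0
      have h2 := hS b hb
      have h3 : comp e (comp (comp ⊤ b) ⊤) = ⊥ := by
        rw [← comp_assoc, ← comp_assoc, h0, bot_comp]
      rw [h2] at h3
      have h4 : e ≤ comp e ⊤ := by
        have := comp_mono_right (le_top : (ide : B) ≤ ⊤) e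
        rwa [comp_ide] at this
      rw [h3, le_bot_iff] at h4
      exact h.atom.1 h4
    obtain ⟨t, ht, htb⟩ := hA _ h1
    have h2 : comp (comp e ⊤) b ⊓ t ≠ ⊥ := IsAtom.ne_of_le ht htb
    have h3 : comp t (conv b) ⊓ comp e ⊤ ≠ ⊥ := by
      refine cyc2' (x := t) (y := conv b) (z := comp e ⊤) ?_
      rw [conv_conv]
      exact h2
    obtain ⟨r, hr, hrb⟩ := hA _ h3
    have h4 : comp t (conv b) ⊓ r ≠ ⊥ := IsAtom.ne_of_le hr (hrb.trans inf_le_left)
    let r' : Pt B e := ⟨r, hr, hrb.trans inf_le_right⟩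
    have h5 : comp r b ⊓ t ≠ ⊥ := by
      refine cyc2' (x := r) (y := b) (z := t) ?_
      exact h4
    have h6 : t ≤ comp r b := IsAtom.le_of ht h5
    exact ⟨r', ⟨t, ht, h6.trans (h.comp_le r' b)⟩, h6⟩
  have hle : ∀ b c, F b ≤ F c → b ≤ c := by
    intro b c hbc
    by_contra hc
    have h0 : b ⊓ cᶜ ≠ ⊥ := by
      intro h0
      exact hc (by rw [← compl_compl c, le_compl_iff_disjoint_right, disjoint_iff]; exact h0)
    obtain ⟨r, s, hrs⟩ := hne _ h0
    have h1 : (r, s) ∈ (F c).1 := hbc (hmono _ _ inf_le_left hrs)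
    have h2 : s.1 ≤ comp r.1 cᶜ := hmono _ _ inf_le_right hrs
    have h3 := le_inf ((hF _ _ _).1 h1) h2
    rw [h.fn_inf, le_bot_iff] at h3
    exact s.2.1.1 h3
  have horb : ∀ R : Rel (Multiplicative (ZMod p)) (Pt B e), IsAtom R → ∃ b, F b = R := by
    intro R hR
    obtain ⟨r, s, hrs⟩ : ∃ r s, (r, s) ∈ R.1 := by
      by_contra hc
      push Not at hc
      apply hR.1
      refine Rel.ext' fun x y => ?_
      exact ⟨fun h' => absurd h' (hc x y), fun h' => h'.elim⟩
    refine ⟨comp (conv r.1) s.1, ?_⟩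
    have hle' : F (comp (conv r.1) s.1) ≤ R := by
      rintro ⟨r', s'⟩ hs
      have h2 : s'.1 ≤ comp r'.1 (comp (conv r.1) s.1) := hs
      rw [← comp_assoc] at h2
      have h3 : comp r'.1 (conv r.1) ≤ sm e g p := by
        rw [← h.full]
        have a2 : conv r.1 = comp (conv r.1) e := by
          have := congrArg conv (h.er r)
          rw [conv_comp, h.conv_e] at this
          exact this.symm
        rw [a2, ← comp_assoc]
        refine comp_mono_left ?_ _
        rw [← h.er r', comp_assoc]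
        exact comp_mono_right le_top _
      have h4 : comp s'.1 (conv s.1) ⊓ comp r'.1 (conv r.1) ≠ ⊥ := by
        intro h0
        have h5 : comp (comp r'.1 (conv r.1)) s.1 ⊓ s'.1 = ⊥ := by
          have h7 := cyc2 (x := s'.1) (y := conv s.1) (z := comp r'.1 (conv r.1)) h0
          rwa [conv_conv] at h7
        exact IsAtom.ne_of_le s'.2.1 h2 h5
      obtain ⟨i, hi, h5⟩ := le_sm (inf_le_right.trans h3) h4
      have h6 : comp s'.1 (conv s.1) ⊓ pw e g i ≠ ⊥ := by
        intro h0
        apply h5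
        rw [inf_right_comm, h0, bot_inf_eq]
      have h7 : comp r'.1 (conv r.1) ⊓ pw e g i ≠ ⊥ := by
        intro h0
        apply h5
        rw [inf_assoc, h0, inf_bot_eq]
      have h8 : comp (pw e g i) s.1 ⊓ s'.1 ≠ ⊥ := fun h0 => h6 (cyc2 h0)
      have h9 : comp (pw e g i) r.1 ⊓ r'.1 ≠ ⊥ := fun h0 => h7 (cyc2 h0)
      have h10 : s'.1 = comp (pw e g i) s.1 :=
        ((h.pw_atom s i).1.le_iff.1 (IsAtom.le_of s'.2.1 h8)).resolve_left s'.2.1.1
      have h11 : r'.1 = comp (pw e g i) r.1 :=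
        ((h.pw_atom r i).1.le_iff.1 (IsAtom.le_of r'.2.1 h9)).resolve_left r'.2.1.1
      have h12 := R.2 (Multiplicative.ofAdd (i : ZMod p)) r s hrs
      have h13 : ∀ t : Pt B e, ((Multiplicative.ofAdd (i : ZMod p)) • t).1 = comp (pw e g i) t.1 := by
        intro t
        rw [hsm]
        show comp (pw e g (i : ZMod p).val) t.1 = _
        rw [ZMod.val_natCast, Nat.mod_eq_of_lt hi]
      have e1 : (Multiplicative.ofAdd (i : ZMod p)) • r = r' := Subtype.ext (by rw [h13, h11])
      have e2 : (Multiplicative.ofAdd (i : ZMod p)) • s = s' := Subtype.ext (by rw [h13, h10])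
      rwa [e1, e2] at h12
    have hin : (r, s) ∈ (F (comp (conv r.1) s.1)).1 := by
      show s.1 ≤ comp r.1 (comp (conv r.1) s.1)
      rw [← comp_assoc]
      have h2 := comp_mono_left (h.rr r) s.1
      rwa [h.er] at h2
    refine (hR.le_iff.1 hle').resolve_left fun h0 => ?_
    rw [h0] at hin
    exact hin
  have hinj : Function.Injective F := fun b c hbc => le_antisymm (hle _ _ hbc.le) (hle _ _ hbc.ge)
  have hsup : ∀ b c, F (b ⊔ c) = F b ⊔ F c := by
    intro b c
    refine le_antisymm ?_ (sup_le (hmono _ _ le_sup_left) (hmono _ _ le_sup_right))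
    rintro ⟨r, s⟩ hrs
    have h1 : s.1 ≤ comp r.1 (b ⊔ c) := hrs
    rw [comp_sup] at h1
    exact IsAtom.le_sup' s.2.1 h1
  have hcompl : ∀ b, F bᶜ = (F b)ᶜ := by
    intro b
    refine Rel.ext' fun r s => ?_
    constructor
    · intro h1 h2
      have h3 := le_inf (show s.1 ≤ comp r.1 b from h2) (show s.1 ≤ comp r.1 bᶜ from h1)
      rw [h.fn_inf, le_bot_iff] at h3
      exact s.2.1.1 h3
    · intro h1
      have h2 : s.1 ≤ comp r.1 (b ⊔ bᶜ) := by
        rw [sup_compl_eq_top]
        refine s.2.2.trans ?_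
        refine (comp_mono_left (h.rr r) _).trans ?_
        rw [comp_assoc]
        exact comp_mono_right le_top _
      rw [comp_sup] at h2
      exact (IsAtom.le_sup' s.2.1 h2).resolve_left h1
  refine ⟨Pt B e, ?_, h.action, F, hinj, hsup, hcompl, ?_, ?_, ?_, horb⟩
  · exact ⟨⟨e, h.atom, by
      have := comp_mono_right (le_top : (ide : B) ≤ ⊤) e
      rwa [comp_ide] at this⟩⟩
  · intro x y
    refine Rel.ext' fun r s => ?_
    constructor
    · intro hrs
      have h1 : s.1 ≤ comp r.1 (comp x y) := hrs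
      rw [← comp_assoc] at h1
      have h2 : comp s.1 (conv y) ⊓ comp r.1 x ≠ ⊥ := by
        intro h0
        have h3 := cyc2 (x := s.1) (y := conv y) (z := comp r.1 x) h0
        rw [conv_conv] at h3
        exact IsAtom.ne_of_le s.2.1 h1 h3
      obtain ⟨t, ht, htb⟩ := hA _ h2
      refine ⟨⟨t, ht, (htb.trans inf_le_right).trans (h.comp_le r x)⟩, htb.trans inf_le_right, ?_⟩
      show s.1 ≤ comp t y
      refine IsAtom.le_of s.2.1 (cyc2' (x := t) (y := y) (z := s.1) ?_)
      exact IsAtom.ne_of_le ht (htb.trans inf_le_left)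
    · rintro ⟨t, h1, h2⟩
      have h1' : t.1 ≤ comp r.1 x := h1
      have h2' : s.1 ≤ comp t.1 y := h2
      show s.1 ≤ comp r.1 (comp x y)
      rw [← comp_assoc]
      exact h2'.trans (comp_mono_left h1' _)
  · intro x
    refine Rel.ext' fun r s => ?_
    constructor
    · intro hrs
      have h1 : s.1 ≤ comp r.1 (conv x) := hrs
      show r.1 ≤ comp s.1 x
      refine IsAtom.le_of r.2.1 (cyc2' (x := s.1) (y := x) (z := r.1) ?_)
      exact IsAtom.ne_of_le s.2.1 h1
    · intro hrs
      have h1 : r.1 ≤ comp s.1 x := hrs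
      show s.1 ≤ comp r.1 (conv x)
      refine IsAtom.le_of s.2.1 (cyc2' (x := r.1) (y := conv x) (z := s.1) ?_)
      rw [conv_conv]
      exact IsAtom.ne_of_le r.2.1 h1
  · refine Rel.ext' fun r s => ?_
    constructor
    · intro hrs
      have h1 : s.1 ≤ comp r.1 ide := hrs
      rw [comp_ide] at h1
      show r = s
      exact (Subtype.ext ((r.2.1.le_iff.1 h1).resolve_left s.2.1.1)).symm
    · intro hrs
      have h1 : r = s := hrs
      show s.1 ≤ comp r.1 ide
      rw [h1, comp_ide]

theorem inK_of_star (hC : Complete B) (h : InStar p B) : InK p B := by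
  obtain ⟨A, hAne, _, F, hinj, hsup, hcompl, hc, hv, hi, horb⟩ := h
  have hmono : ∀ b c, b ≤ c → F b ≤ F c := by
    intro b c hbc
    have := hsup b c
    rw [sup_eq_right.2 hbc] at this
    rw [this]
    exact le_sup_left
  have hle : ∀ b c, F b ≤ F c → b ≤ c := by
    intro b c hbc
    have := hsup b c
    rw [sup_eq_right.2 hbc] at this
    exact sup_eq_right.1 (hinj this)
  have hbot : F ⊥ = ⊥ := by
    have h1 : F ⊤ = F ⊥ ⊔ F ⊤ := by rw [← hsup, bot_sup_eq]
    have h2 := hcompl ⊤
    rw [compl_top] at h2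
    have h3 : F ⊥ ≤ F ⊤ := hmono _ _ bot_le
    have h4 : F ⊥ ≤ F ⊥ᶜ := by rw [compl_bot]; exact h3
    rw [hcompl] at h4
    have h5 := le_inf le_rfl h4
    rwa [inf_compl_eq_bot, le_bot_iff] at h5
  have hsurj : Function.Surjective F := by
    intro R
    obtain ⟨b0, hb0⟩ := hC {b | F b ≤ R}
    refine ⟨b0, Rel.ext' fun x y => ?_⟩
    -- the orbital of `(x, y)`
    let O : Rel (Multiplicative (ZMod p)) A := ⟨{w | ∃ g : Multiplicative (ZMod p),
      w = (g • x, g • y)}, by
        rintro k u v ⟨g, hg⟩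
        refine ⟨k * g, ?_⟩
        rw [Prod.mk.injEq] at hg
        rw [hg.1, hg.2, mul_smul, mul_smul]⟩
    have hO : (x, y) ∈ O.1 := ⟨1, by rw [one_smul, one_smul]⟩
    have hOle : ∀ R' : Rel (Multiplicative (ZMod p)) A, (x, y) ∈ R'.1 → O ≤ R' := by
      rintro R' h1 w ⟨g, rfl⟩
      exact R'.2 g x y h1
    have hOatom : IsAtom O := by
      constructor
      · intro h1
        rw [h1] at hO
        exact hO
      · intro S hS
        by_contra hne
        obtain ⟨u, v, huv⟩ : ∃ u v, (u, v) ∈ S.1 := by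
          by_contra hc
          push Not at hc
          apply hne
          refine Rel.ext' fun x y => ?_
          exact ⟨fun h' => absurd h' (hc x y), fun h' => h'.elim⟩
        obtain ⟨g, hg⟩ := hS.le huv
        rw [Prod.mk.injEq] at hg
        rw [hg.1, hg.2, Rel.iff] at huv
        exact absurd (hOle S huv) (not_le_of_gt hS)
    obtain ⟨t, ht⟩ := horb O hOatom
    constructor
    · intro h1
      have h2 : t ≤ b0 := hle _ _ (by rw [ht]; exact hOle _ h1)
      by_contra hR
      have h3 : b0 ≤ tᶜ := by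
        refine hb0.2 fun b hb => ?_
        refine hle _ _ ?_
        rw [hcompl, ht]
        intro w hw hwO
        obtain ⟨g, rfl⟩ := hwO
        have h4 : (g • x, g • y) ∈ R.1 := (show F b ≤ R from hb) hw
        rw [Rel.iff] at h4
        exact hR h4
      have h4 := le_inf le_rfl (h2.trans h3)
      rw [inf_compl_eq_bot, le_bot_iff] at h4
      rw [h4, hbot] at ht
      exact hOatom.1 ht.symm
    · intro h1
      have h2 : t ≤ b0 := hb0.1 (show F t ≤ R by rw [ht]; exact hOle _ h1)
      have h3 := hmono _ _ h2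
      rw [ht] at h3
      exact h3 hO
  let f : B ≃o Rel (Multiplicative (ZMod p)) A :=
    { toEquiv := Equiv.ofBijective F ⟨hinj, hsurj⟩
      map_rel_iff' := fun {b c} => ⟨hle b c, hmono b c⟩ }
  exact ⟨A, hAne, inferInstance, f, hc, hv, hi⟩

end Pool.Agent.H313RA
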