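import Mathlib
import Pool.Agent.H313RA.Rep

/-!
The algebras of compatible relations satisfy the conditions.
-/

set_option autoImplicit false
set_option linter.unusedSectionVars false

namespace Pool.Agent.H313RA

open RelAlg

section general

variable {G A : Type} [Group G] [MulAction G A]

theorem exists_mem {R : Rel G A} (h : R ≠ ⊥) : ∃ x y, (x, y) ∈ R.1 := by
  by_contra hc
  push Not at hc
  apply h
  refine Rel.ext' fun x y => ?_
  exact ⟨fun h' => absurd h' (hc x y), fun h' => h'.elim⟩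

theorem simple_rel : Simple (Rel G A) := by
  intro R hR
  obtain ⟨x, y, hxy⟩ := exists_mem hR
  refine Rel.ext' fun u v => ⟨fun _ => trivial, fun _ => ?_⟩
  exact ⟨y, ⟨x, trivial, hxy⟩, trivial⟩

/-- The orbital of a pair. -/
def orb (G : Type) {A : Type} [Group G] [MulAction G A] (x y : A) : Rel G A :=
  ⟨{w | ∃ g : G, w = (g • x, g • y)}, by
    rintro k u v ⟨g, hg⟩
    refine ⟨k * g, ?_⟩
    rw [Prod.mk.injEq] at hg
    rw [hg.1, hg.2, mul_smul, mul_smul]⟩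

theorem mem_orb (x y u v : A) : (u, v) ∈ (orb G x y).1 ↔ ∃ g : G, u = g • x ∧ v = g • y := by
  constructor
  · rintro ⟨g, hg⟩
    rw [Prod.mk.injEq] at hg
    exact ⟨g, hg⟩
  · rintro ⟨g, h1, h2⟩
    exact ⟨g, by rw [h1, h2]⟩

theorem mem_orb_self (x y : A) : (x, y) ∈ (orb G x y).1 :=
  (mem_orb x y x y).2 ⟨1, by rw [one_smul], by rw [one_smul]⟩

theorem orb_le {R : Rel G A} {x y : A} (h : (x, y) ∈ R.1) : orb G x y ≤ R := by
  rintro w ⟨g, rfl⟩
  exact R.2 g x y h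

theorem isAtom_orb (x y : A) : IsAtom (orb G x y) := by
  constructor
  · intro h
    have h1 := mem_orb_self (G := G) x y
    rw [h] at h1
    exact h1
  · intro S hS
    by_contra hne
    obtain ⟨u, v, huv⟩ := exists_mem hne
    obtain ⟨g, rfl, rfl⟩ := (mem_orb x y u v).1 (hS.le huv)
    rw [Rel.iff] at huv
    exact absurd (orb_le huv) (not_le_of_gt hS)

theorem atom_eq {R : Rel G A} (hR : IsAtom R) {x y : A} (h : (x, y) ∈ R.1) : R = orb G x y :=
  ((hR.le_iff.1 (orb_le h)).resolve_left (isAtom_orb x y).1).symm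

theorem atomic_rel : Atomic (Rel G A) := by
  intro R hR
  obtain ⟨x, y, hxy⟩ := exists_mem hR
  exact ⟨orb G x y, isAtom_orb x y, orb_le hxy⟩

theorem complete_rel : Complete (Rel G A) := by
  intro S
  refine ⟨⟨⋃ R ∈ S, R.1, ?_⟩, ?_, ?_⟩
  · intro g x y h
    simp only [Set.mem_iUnion] at h ⊢
    obtain ⟨R, hR, h⟩ := h
    exact ⟨R, hR, R.2 g x y h⟩
  · intro R hR w hw
    exact Set.mem_iUnion₂.2 ⟨R, hR, hw⟩
  · intro T hT w hw
    obtain ⟨R, hR, hw⟩ := Set.mem_iUnion₂.1 hw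
    exact hT hR hw

end general

section cyclic

variable {p : ℕ} {A : Type} [MulAction (Multiplicative (ZMod p)) A]

theorem exists_point [hp : Fact p.Prime] [hA : Nonempty A] : ∃ a : A,
    ∀ g h : Multiplicative (ZMod p), g • a = h • a → ∀ y : A, g • y = h • y := by
  by_cases htriv : ∀ (g : Multiplicative (ZMod p)) (y : A), g • y = y
  · obtain ⟨a⟩ := hA
    exact ⟨a, fun g h _ y => by rw [htriv, htriv]⟩
  · push Not at htriv
    obtain ⟨g0, a, hne⟩ := htriv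
    refine ⟨a, fun g h hgh y => ?_⟩
    have hcard : Nat.card (Multiplicative (ZMod p)) = p := by
      rw [Nat.card_congr Multiplicative.toAdd, Nat.card_zmod]
    have : Fact (Nat.card (Multiplicative (ZMod p))).Prime := ⟨by rw [hcard]; exact hp.out⟩
    rcases (MulAction.stabilizer (Multiplicative (ZMod p)) a).eq_bot_or_eq_top_of_prime_card with
      h1 | h1
    · have h2 : h⁻¹ * g ∈ MulAction.stabilizer (Multiplicative (ZMod p)) a := by
        rw [MulAction.mem_stabilizer_iff, mul_smul, hgh, inv_smul_smul]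
      rw [h1, Subgroup.mem_bot, inv_mul_eq_one] at h2
      rw [h2]
    · have h2 : g0 ∈ MulAction.stabilizer (Multiplicative (ZMod p)) a := by
        rw [h1]; exact Subgroup.mem_top _
      exact absurd (MulAction.mem_stabilizer_iff.1 h2) hne

/-- The generator. -/
def gam (p : ℕ) : Multiplicative (ZMod p) := Multiplicative.ofAdd 1

theorem gam_pow (p : ℕ) (n : ℕ) : gam p ^ n = Multiplicative.ofAdd (n : ZMod p) := by
  unfold gam
  rw [← ofAdd_nsmul, nsmul_eq_mul, mul_one]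

theorem pw_orb (a : A)
    (ha : ∀ g h : Multiplicative (ZMod p), g • a = h • a → ∀ y : A, g • y = h • y) (n : ℕ) :
    pw (orb (Multiplicative (ZMod p)) a a) (orb (Multiplicative (ZMod p)) a (gam p • a)) n =
      orb (Multiplicative (ZMod p)) a (gam p ^ n • a) := by
  induction n with
  | zero => rw [pow_zero, one_smul]; rfl
  | succ n ih =>
    show comp (pw _ _ n) _ = _
    rw [ih]
    refine Rel.ext' fun x z => ?_
    constructor
    · rintro ⟨y, h1, h2⟩
      obtain ⟨g, rfl, h3⟩ := (mem_orb _ _ _ _).1 h1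
      obtain ⟨h, h4, rfl⟩ := (mem_orb _ _ _ _).1 h2
      refine (mem_orb _ _ _ _).2 ⟨g, rfl, ?_⟩
      have h5 : (g * gam p ^ n) • a = h • a := by rw [mul_smul, ← h3, h4]
      have h6 := ha _ _ h5 (gam p • a)
      rw [← h6, smul_smul, smul_smul, mul_assoc, ← pow_succ]
    · intro h1
      obtain ⟨g, rfl, rfl⟩ := (mem_orb _ _ _ _).1 h1
      refine ⟨g • gam p ^ n • a, (mem_orb _ _ _ _).2 ⟨g, rfl, rfl⟩,
        (mem_orb _ _ _ _).2 ⟨g * gam p ^ n, by rw [mul_smul], ?_⟩⟩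
      rw [smul_smul, smul_smul, mul_assoc, ← pow_succ]

theorem mem_sm {G : Type} [Group G] [MulAction G A] (e g : Rel G A) (n : ℕ) (x y : A) :
    (x, y) ∈ (sm e g n).1 ↔ ∃ i, i < n ∧ (x, y) ∈ (pw e g i).1 := by
  induction n with
  | zero => exact ⟨fun h => h.elim, fun ⟨i, hi, _⟩ => absurd hi (Nat.not_lt_zero i)⟩
  | succ n ih =>
    constructor
    · rintro (h | h)
      · obtain ⟨i, hi, h⟩ := ih.1 h
        exact ⟨i, by omega, h⟩
      · exact ⟨n, by omega, h⟩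
    · rintro ⟨i, hi, h⟩
      by_cases hin : i = n
      · subst hin; exact Or.inr h
      · exact Or.inl (ih.2 ⟨i, by omega, h⟩)

theorem base_rel [hp : Fact p.Prime] [hA : Nonempty A] :
    ∃ e g : Rel (Multiplicative (ZMod p)) A, Base _ p e g ∧ IsAtom g := by
  obtain ⟨a, ha⟩ := exists_point (p := p) (A := A)
  refine ⟨orb _ a a, orb _ a (gam p • a), ⟨isAtom_orb _ _, ?_, ?_, ?_, ?_, ?_, ?_⟩,
    isAtom_orb _ _⟩
  · rintro w ⟨g, rfl⟩
    exact rfl
  · refine Rel.ext' fun x z => ?_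
    constructor
    · rintro ⟨y, h1, h2⟩
      obtain ⟨g, rfl, h3⟩ := (mem_orb _ _ _ _).1 h1
      obtain ⟨h, h4, h5⟩ := (mem_orb _ _ _ _).1 (show (z, y) ∈ (orb _ a (gam p • a)).1 from h2)
      refine (mem_orb _ _ _ _).2 ⟨g, rfl, ?_⟩
      rw [h3, smul_smul, smul_smul, mul_comm g, mul_comm h, mul_smul, mul_smul] at h5
      rw [h4]
      exact (MulAction.injective _ h5).symm
    · intro h1
      obtain ⟨g, rfl, rfl⟩ := (mem_orb _ _ _ _).1 h1
      exact ⟨g • gam p • a, (mem_orb _ _ _ _).2 ⟨g, rfl, rfl⟩, (mem_orb _ _ _ _).2 ⟨g, rfl, rfl⟩⟩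
  · refine Rel.ext' fun y z => ?_
    constructor
    · rintro ⟨x, h1, h2⟩
      obtain ⟨g, h3, rfl⟩ := (mem_orb _ _ _ _).1 (show (x, y) ∈ (orb _ a (gam p • a)).1 from h1)
      obtain ⟨h, h4, rfl⟩ := (mem_orb _ _ _ _).1 h2
      refine (mem_orb _ _ _ _).2 ⟨g * gam p, by rw [mul_smul], ?_⟩
      have h5 : h • a = g • a := by rw [← h4, h3]
      rw [ha _ _ h5, mul_smul]
    · intro h1
      obtain ⟨g, rfl, rfl⟩ := (mem_orb _ _ _ _).1 h1
      have e1 : g • a = (g * (gam p)⁻¹) • gam p • a := by rw [mul_smul, inv_smul_smul]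
      exact ⟨(g * (gam p)⁻¹) • a, (mem_orb _ _ _ _).2 ⟨g * (gam p)⁻¹, rfl, e1⟩,
        (mem_orb _ _ _ _).2 ⟨g * (gam p)⁻¹, rfl, e1⟩⟩
  · rw [pw_orb a ha, gam_pow, ZMod.natCast_self, ofAdd_zero, one_smul]
  · refine Rel.ext' fun x z => ?_
    rw [mem_sm]
    constructor
    · rintro ⟨z', ⟨x', h1, -⟩, h2⟩
      obtain ⟨g, rfl, -⟩ := (mem_orb _ _ _ _).1 h1
      obtain ⟨h, -, rfl⟩ := (mem_orb _ _ _ _).1 h2
      refine ⟨(Multiplicative.toAdd (g⁻¹ * h)).val, ZMod.val_lt _, ?_⟩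
      rw [pw_orb a ha]
      refine (mem_orb _ _ _ _).2 ⟨g, rfl, ?_⟩
      rw [gam_pow, ZMod.natCast_zmod_val, ofAdd_toAdd, smul_smul, mul_inv_cancel_left]
    · rintro ⟨i, -, h1⟩
      rw [pw_orb a ha] at h1
      obtain ⟨g, rfl, rfl⟩ := (mem_orb _ _ _ _).1 h1
      refine ⟨g • gam p ^ i • a, ⟨g • a, (mem_orb _ _ _ _).2 ⟨g, rfl, rfl⟩, trivial⟩,
        (mem_orb _ _ _ _).2 ⟨g * gam p ^ i, by rw [mul_smul], by rw [mul_smul]⟩⟩
  · rintro r hr hre ⟨y, z⟩ ⟨x, h1, h2⟩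
    have h1' : (x, y) ∈ r.1 := h1
    have h2' : (x, z) ∈ r.1 := h2
    rw [atom_eq hr h1'] at h2'
    obtain ⟨g, h3, rfl⟩ := (mem_orb _ _ _ _).1 h2'
    obtain ⟨x', h4, -⟩ := hre h1'
    obtain ⟨h, h5, -⟩ := (mem_orb _ _ _ _).1 h4
    have h5' : x = h • a := h5
    have h6 : (g * h) • a = h • a := by rw [mul_smul, ← h5', ← h3]
    have h7 := ha _ _ h6 (h⁻¹ • y)
    rw [smul_smul, mul_inv_cancel_right, smul_inv_smul] at h7
    show y = g • y
    exact h7.symm

end cyclic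

end Pool.Agent.H313RA
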