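import Mathlib
import Pool.Agent.H313RA.Fwd

/-!
First-order logic of relation algebras; elementary subalgebras; the main theorems.
-/

set_option autoImplicit false
set_option linter.unusedSectionVars false

namespace Pool.Agent.H313RA

open RelAlg

/-- Terms of the language of relation algebras with variables from `V`. -/
inductive Tm (V : Type) : Type
  | var (i : V)
  | zero
  | one
  | ide
  | sup (s t : Tm V)
  | inf (s t : Tm V)
  | compl (s : Tm V)
  | comp (s t : Tm V)
  | conv (s : Tm V)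
  deriving Countable

/-- The value of a term. -/
def Tm.val (B : Type) [RelAlg B] {V : Type} (x : V → B) : Tm V → B
  | .var i => x i
  | .zero => ⊥
  | .one => ⊤
  | .ide => RelAlg.ide
  | .sup s t => s.val B x ⊔ t.val B x
  | .inf s t => s.val B x ⊓ t.val B x
  | .compl s => (s.val B x)ᶜ
  | .comp s t => RelAlg.comp (s.val B x) (t.val B x)
  | .conv s => RelAlg.conv (s.val B x)

/-- First-order formulas of the language of relation algebras with `n` free variables. -/
inductive Fm : ℕ → Type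
  | eq {n : ℕ} (s t : Tm (Fin n)) : Fm n
  | neg {n : ℕ} (φ : Fm n) : Fm n
  | and {n : ℕ} (φ ψ : Fm n) : Fm n
  | ex {n : ℕ} (φ : Fm (n + 1)) : Fm n

/-- Truth of a formula in `B` when its free variables have the values `x 0, x 1, …`. -/
def Fm.Holds (B : Type) [RelAlg B] : {n : ℕ} → Fm n → (Fin n → B) → Prop
  | _, .eq s t, x => s.val B x = t.val B x
  | _, .neg φ, x => ¬ φ.Holds B x
  | _, .and φ ψ, x => φ.Holds B x ∧ ψ.Holds B x
  | _, .ex φ, x => ∃ y : B, φ.Holds B (Fin.cons y x)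

/-- Renaming of variables. -/
def Tm.map {V W : Type} (f : V → W) : Tm V → Tm W
  | .var i => .var (f i)
  | .zero => .zero
  | .one => .one
  | .ide => .ide
  | .sup s t => .sup (s.map f) (t.map f)
  | .inf s t => .inf (s.map f) (t.map f)
  | .compl s => .compl (s.map f)
  | .comp s t => .comp (s.map f) (t.map f)
  | .conv s => .conv (s.map f)

theorem Tm.val_map {V W : Type} (f : V → W) {B : Type} [RelAlg B] (x : W → B) (t : Tm V) :
    (t.map f).val B x = t.val B fun i => x (f i) := by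
  induction t with
  | var i => rfl
  | zero => rfl
  | one => rfl
  | ide => rfl
  | sup s t hs ht => show _ ⊔ _ = _ ⊔ _; rw [hs, ht]
  | inf s t hs ht => show _ ⊓ _ = _ ⊓ _; rw [hs, ht]
  | compl s hs => show _ᶜ = _ᶜ; rw [hs]
  | comp s t hs ht => show RelAlg.comp _ _ = RelAlg.comp _ _; rw [hs, ht]
  | conv s hs => show RelAlg.conv _ = RelAlg.conv _; rw [hs]

theorem cons_map {n : ℕ} {B C : Type} (f : B → C) (y : B) (x : Fin n → B) :
    (fun i => f ((Fin.cons y x : Fin (n + 1) → B) i)) =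
      (Fin.cons (f y) fun i => f (x i) : Fin (n + 1) → C) := by
  funext i
  refine Fin.cases ?_ (fun j => ?_) i
  · rfl
  · rfl

section iso

variable {B C : Type} [RelAlg B] [RelAlg C] (f : B ≃o C)
  (hc : ∀ x y, f (comp x y) = comp (f x) (f y)) (hv : ∀ x, f (conv x) = conv (f x))
  (hi : f ide = ide)

include hc hv hi

theorem val_iso {V : Type} (x : V → B) (t : Tm V) : t.val C (fun i => f (x i)) = f (t.val B x) := by
  induction t with
  | var i => rfl
  | zero => exact (map_bot f).symm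
  | one => exact (map_top f).symm
  | ide => exact hi.symm
  | sup s t hs ht => show _ ⊔ _ = f (_ ⊔ _); rw [hs, ht, map_sup]
  | inf s t hs ht => show _ ⊓ _ = f (_ ⊓ _); rw [hs, ht, map_inf]
  | compl s hs => show _ᶜ = f (_ᶜ); rw [hs, map_compl']
  | comp s t hs ht => show RelAlg.comp _ _ = f (RelAlg.comp _ _); rw [hs, ht, hc]
  | conv s hs => show RelAlg.conv _ = f (RelAlg.conv _); rw [hs, hv]

theorem holds_iso {n : ℕ} (φ : Fm n) : ∀ x : Fin n → B,
    φ.Holds C (fun i => f (x i)) ↔ φ.Holds B x := by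
  induction φ with
  | eq s t =>
    intro x
    show s.val C _ = t.val C _ ↔ s.val B x = t.val B x
    rw [val_iso f hc hv hi, val_iso f hc hv hi, f.injective.eq_iff]
  | neg φ ih => intro x; exact not_congr (ih x)
  | and φ ψ ih ih' => intro x; exact and_congr (ih x) (ih' x)
  | ex φ ih =>
    intro x
    constructor
    · rintro ⟨y, hy⟩
      refine ⟨f.symm y, (ih _).1 ?_⟩
      rw [cons_map, OrderIso.apply_symm_apply]
      exact hy
    · rintro ⟨y, hy⟩
      refine ⟨f y, ?_⟩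
      have := (ih _).2 hy
      rwa [cons_map] at this

end iso

section levels

/-- levels -/
def FS : ℕ → (n : ℕ) → Set (Fm n)
  | 0, n => Set.range fun p : Tm (Fin n) × Tm (Fin n) => Fm.eq p.1 p.2
  | d + 1, n => FS d n ∪ Fm.neg '' FS d n ∪
      (fun p : Fm n × Fm n => Fm.and p.1 p.2) '' (FS d n ×ˢ FS d n) ∪ Fm.ex '' FS d (n + 1)

theorem FS_countable (d : ℕ) : ∀ n, (FS d n).Countable := by
  induction d with
  | zero => intro n; exact Set.countable_range _
  | succ d ih =>
    intro n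
    exact (((ih n).union ((ih n).image _)).union (((ih n).prod (ih n)).image _)).union
      ((ih (n + 1)).image _)

theorem FS_mono {d d' : ℕ} (hd : d ≤ d') (n : ℕ) : FS d n ⊆ FS d' n := by
  induction hd with
  | refl => exact subset_rfl
  | step _ ih => exact ih.trans fun φ hφ => Or.inl (Or.inl (Or.inl hφ))

theorem mem_FS {n : ℕ} (φ : Fm n) : ∃ d, φ ∈ FS d n := by
  induction φ with
  | eq s t => exact ⟨0, ⟨(s, t), rfl⟩⟩
  | neg φ ih =>
    obtain ⟨d, hd⟩ := ih
    exact ⟨d + 1, Or.inl (Or.inl (Or.inr ⟨φ, hd, rfl⟩))⟩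
  | and φ ψ ih ih' =>
    obtain ⟨d, hd⟩ := ih
    obtain ⟨d', hd'⟩ := ih'
    exact ⟨max d d' + 1, Or.inl (Or.inr ⟨(φ, ψ), ⟨FS_mono (le_max_left _ _) _ hd,
      FS_mono (le_max_right _ _) _ hd'⟩, rfl⟩)⟩
  | ex φ ih =>
    obtain ⟨d, hd⟩ := ih
    exact ⟨d + 1, Or.inr ⟨φ, hd, rfl⟩⟩

instance (n : ℕ) : Countable (Fm n) := by
  rw [← Set.countable_univ_iff]
  refine (Set.countable_iUnion fun d => FS_countable d n).mono fun φ _ => ?_
  exact Set.mem_iUnion.2 (mem_FS φ)

end levels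

section sub

variable {B : Type} [RelAlg B]

/-- `K` contains witnesses. -/
def WitClosed (K : Set B) : Prop := ∀ (n : ℕ) (φ : Fm (n + 1)) (x : Fin n → B), (∀ i, x i ∈ K) →
  (∃ y, φ.Holds B (Fin.cons y x)) → ∃ y ∈ K, φ.Holds B (Fin.cons y x)

theorem WitClosed.term {K : Set B} (hK : WitClosed K) {n : ℕ} (x : Fin n → B) (hx : ∀ i, x i ∈ K)
    (t : Tm (Fin n)) : t.val B x ∈ K := by
  have h0 : ∀ y, (Fm.eq (.var 0) (t.map Fin.succ)).Holds B (Fin.cons y x) ↔ y = t.val B x := by
    intro y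
    show y = (t.map Fin.succ).val B (Fin.cons y x) ↔ _
    rw [Tm.val_map]
    exact Iff.rfl
  obtain ⟨y, hy, h⟩ := hK n (Fm.eq (.var 0) (t.map Fin.succ)) x hx ⟨_, (h0 _).2 rfl⟩
  rw [h0] at h
  rwa [← h]

variable {K : Set B} (hK : WitClosed K)

/-- The subalgebra with underlying set `K`. -/
@[reducible] def subAlg (hK : WitClosed K) : RelAlg K :=
  let _ : LE K := ⟨fun x y => x.1 ≤ y.1⟩
  let _ : LT K := ⟨fun x y => x.1 < y.1⟩
  let _ : Max K := ⟨fun x y => ⟨x.1 ⊔ y.1, hK.term ![x.1, y.1]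
    (by intro i; fin_cases i; exacts [x.2, y.2]) (.sup (.var 0) (.var 1))⟩⟩
  let _ : Min K := ⟨fun x y => ⟨x.1 ⊓ y.1, hK.term ![x.1, y.1]
    (by intro i; fin_cases i; exacts [x.2, y.2]) (.inf (.var 0) (.var 1))⟩⟩
  let _ : Top K := ⟨⟨⊤, hK.term ![] (by intro i; exact i.elim0) .one⟩⟩
  let _ : Bot K := ⟨⟨⊥, hK.term ![] (by intro i; exact i.elim0) .zero⟩⟩
  let _ : Compl K := ⟨fun x => ⟨x.1ᶜ, hK.term ![x.1]
    (by intro i; fin_cases i; exact x.2) (.compl (.var 0))⟩⟩
  let _ : SDiff K := ⟨fun x y => ⟨x.1 \ y.1, by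
    rw [sdiff_eq]
    exact hK.term ![x.1, y.1] (by intro i; fin_cases i; exacts [x.2, y.2])
      (.inf (.var 0) (.compl (.var 1)))⟩⟩
  let _ : HImp K := ⟨fun x y => ⟨x.1 ⇨ y.1, by
    rw [himp_eq]
    exact hK.term ![x.1, y.1] (by intro i; fin_cases i; exacts [x.2, y.2])
      (.sup (.var 1) (.compl (.var 0)))⟩⟩
  let _ : BooleanAlgebra K := Function.Injective.booleanAlgebra (fun x : K => x.1)
    Subtype.val_injective (fun {_ _} => Iff.rfl) (fun {_ _} => Iff.rfl) (fun _ _ => rfl)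
    (fun _ _ => rfl) rfl rfl (fun _ => rfl) (fun _ _ => rfl) (fun _ _ => rfl)
  { comp := fun x y => ⟨comp x.1 y.1, hK.term ![x.1, y.1]
      (by intro i; fin_cases i; exacts [x.2, y.2]) (.comp (.var 0) (.var 1))⟩
    conv := fun x => ⟨conv x.1, hK.term ![x.1]
      (by intro i; fin_cases i; exact x.2) (.conv (.var 0))⟩
    ide := ⟨ide, hK.term ![] (by intro i; exact i.elim0) .ide⟩
    comp_assoc := fun x y z => Subtype.ext (comp_assoc x.1 y.1 z.1)
    comp_ide := fun x => Subtype.ext (comp_ide x.1)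
    conv_conv := fun x => Subtype.ext (conv_conv x.1)
    conv_comp := fun x y => Subtype.ext (conv_comp x.1 y.1)
    sup_comp := fun x y z => Subtype.ext (sup_comp x.1 y.1 z.1)
    conv_sup := fun x y => Subtype.ext (conv_sup x.1 y.1)
    tarski := fun x y => tarski x.1 y.1 }

theorem sub_val {V : Type} (x : V → K) (t : Tm V) :
    letI := subAlg hK; (t.val K x).1 = t.val B fun i => (x i).1 := by
  let _ := subAlg hK
  induction t with
  | var i => rfl
  | zero => rfl
  | one => rfl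
  | ide => rfl
  | sup s t hs ht => show _ ⊔ _ = _ ⊔ _; rw [hs, ht]
  | inf s t hs ht => show _ ⊓ _ = _ ⊓ _; rw [hs, ht]
  | compl s hs => show _ᶜ = _ᶜ; rw [hs]
  | comp s t hs ht => show RelAlg.comp _ _ = RelAlg.comp _ _; rw [hs, ht]
  | conv s hs => show RelAlg.conv _ = RelAlg.conv _; rw [hs]

theorem sub_holds {n : ℕ} (φ : Fm n) : letI := subAlg hK; ∀ x : Fin n → K,
    φ.Holds K x ↔ φ.Holds B fun i => (x i).1 := by
  let _ := subAlg hK
  induction φ with
  | eq s t =>
    intro x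
    show s.val K x = t.val K x ↔ s.val B _ = t.val B _
    rw [← sub_val hK, ← sub_val hK]
    exact Subtype.ext_iff
  | neg φ ih => intro x; exact not_congr (ih x)
  | and φ ψ ih ih' => intro x; exact and_congr (ih x) (ih' x)
  | ex φ ih =>
    intro x
    constructor
    · rintro ⟨y, hy⟩
      refine ⟨y.1, ?_⟩
      have := (ih _).1 hy
      rwa [cons_map (fun z : K => z.1)] at this
    · rintro ⟨y, hy⟩
      obtain ⟨y', hy'K, hy'⟩ := hK _ φ _ (fun i => (x i).2) ⟨y, hy⟩
      refine ⟨⟨y', hy'K⟩, (ih _).2 ?_⟩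
      rw [cons_map (fun z : K => z.1)]
      exact hy'

/-- Downward Loewenheim-Skolem. -/
theorem exists_witClosed (C0 : Set B) (hC : C0.Countable) :
    ∃ K : Set B, K.Countable ∧ C0 ⊆ K ∧ WitClosed K := by
  classical
  have hch : ∀ (n : ℕ) (φ : Fm (n + 1)) (x : Fin n → B), ∃ y, (∃ y, φ.Holds B (Fin.cons y x)) →
      φ.Holds B (Fin.cons y x) := by
    intro n φ x
    by_cases h : ∃ y, φ.Holds B (Fin.cons y x)
    · obtain ⟨y, hy⟩ := h
      exact ⟨y, fun _ => hy⟩
    · exact ⟨⊥, fun h' => absurd h' h⟩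
  choose w hw using hch
  let nxt : Set B → Set B := fun K => K ∪
    ⋃ i : (Σ n : ℕ, Fm (n + 1) × (Fin n → K)), {w i.1 i.2.1 fun k => (i.2.2 k).1}
  obtain ⟨Ks, hK0, hK1⟩ : ∃ Ks : ℕ → Set B, Ks 0 = C0 ∧ ∀ n, Ks (n + 1) = nxt (Ks n) :=
    ⟨fun n => Nat.rec (motive := fun _ => Set B) C0 (fun _ K => nxt K) n, rfl, fun n => rfl⟩
  have hc : ∀ n, (Ks n).Countable := by
    intro n
    induction n with
    | zero => rw [hK0]; exact hC
    | succ n ih =>
      rw [hK1]
      have : Countable (Ks n) := ih.to_subtype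
      exact ih.union (Set.countable_iUnion fun i => Set.countable_singleton _)
  have hmono : Monotone Ks := monotone_nat_of_le_succ fun n => by
    rw [hK1]; exact Set.subset_union_left
  refine ⟨⋃ n, Ks n, Set.countable_iUnion hc, ?_, ?_⟩
  · rw [← hK0]
    exact Set.subset_iUnion Ks 0
  · intro n φ x hx hy
    choose m hm using fun i => Set.mem_iUnion.1 (hx i)
    have hm' : ∀ i, x i ∈ Ks (Finset.univ.sup m) := fun i =>
      hmono (Finset.le_sup (Finset.mem_univ i)) (hm i)
    refine ⟨w n φ x, Set.mem_iUnion.2 ⟨Finset.univ.sup m + 1, ?_⟩, hw n φ x hy⟩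
    rw [hK1]
    exact Or.inr (Set.mem_iUnion.2 ⟨⟨n, φ, fun i => ⟨x i, hm' i⟩⟩, rfl⟩)

end sub

/-- A complete Boolean algebra with infinitely many disjoint elements is uncountable. -/
theorem not_complete_of_countable {B : Type} [RelAlg B] [Countable B] (hB : Complete B)
    (a : ℕ → B) (ha : ∀ n, a n ≠ ⊥) (hd : ∀ m n, m ≠ n → a m ⊓ a n = ⊥) : False := by
  choose L hL using fun S : Set ℕ => hB (a '' S)
  have hsub : ∀ S T, L S = L T → S ⊆ T := by
    intro S T hST n hn
    by_contra hnT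
    have h1 : a n ≤ L S := (hL S).1 ⟨n, hn, rfl⟩
    have h2 : L T ≤ (a n)ᶜ := by
      refine (hL T).2 ?_
      rintro _ ⟨m, hm, rfl⟩
      rw [le_compl_iff_disjoint_right, disjoint_iff]
      exact hd m n fun h => hnT (h ▸ hm)
    rw [hST] at h1
    have h3 := le_inf le_rfl (h1.trans h2)
    rw [inf_compl_eq_bot, le_bot_iff] at h3
    exact ha n h3
  obtain ⟨f, hf⟩ := exists_injective_nat B
  refine Function.cantor_injective (fun S : Set ℕ => f (L S)) fun S T h => ?_
  have := hf h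
  exact Set.Subset.antisymm (hsub S T this) (hsub T S this.symm)

theorem InK.complete {p : ℕ} {B : Type} [RelAlg B] (h : InK p B) : Complete B := by
  obtain ⟨A, _, _, f, -⟩ := h
  intro S
  obtain ⟨c, hc⟩ := complete_rel (f '' S)
  refine ⟨f.symm c, ?_⟩
  rw [← f.isLUB_image', OrderIso.apply_symm_apply]
  exact hc

theorem main1 (p : ℕ) : ¬ ∃ T : Set (Fm 0), ∀ (B : Type) (_ : RelAlg B),
    InK p B ↔ ∀ φ ∈ T, φ.Holds B Fin.elim0 := by
  rintro ⟨T, hT⟩
  let _ : MulAction (Multiplicative (ZMod p)) ℕ :=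
    { smul := fun _ n => n
      one_smul := fun n => rfl
      mul_smul := fun _ _ n => rfl }
  let B := Rel (Multiplicative (ZMod p)) ℕ
  have hB : InK p B := ⟨ℕ, inferInstance, inferInstance, OrderIso.refl _, fun _ _ => rfl,
    fun _ => rfl, rfl⟩
  let a : ℕ → B := fun n => orb _ n n
  have ha : ∀ n, a n ≠ ⊥ := fun n => (isAtom_orb n n).1
  have hd : ∀ m n, m ≠ n → a m ⊓ a n = ⊥ := by
    intro m n hmn
    by_contra hne
    obtain ⟨x, y, h1, h2⟩ := exists_mem hne
    obtain ⟨g, hg, -⟩ := (mem_orb _ _ _ _).1 h1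
    obtain ⟨h, hh, -⟩ := (mem_orb _ _ _ _).1 h2
    have e1 : x = m := hg
    have e2 : x = n := hh
    exact hmn (e1.symm.trans e2)
  obtain ⟨K, hKc, haK, hK⟩ := exists_witClosed (Set.range a) (Set.countable_range a)
  let _ := subAlg hK
  have hcK : Countable K := hKc.to_subtype
  have hKK : InK p K := by
    rw [hT K inferInstance]
    intro φ hφ
    have h1 := (hT B inferInstance).1 hB φ hφ
    rw [sub_holds hK φ]
    have : (fun i : Fin 0 => ((Fin.elim0 i : K) : B)) = Fin.elim0 := by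
      funext i; exact i.elim0
    rwa [this]
  refine not_complete_of_countable hKK.complete (fun n => ⟨a n, haK ⟨n, rfl⟩⟩) ?_ ?_
  · intro n h
    exact ha n (congrArg Subtype.val h)
  · intro m n hmn
    exact Subtype.ext (hd m n hmn)

namespace Fm

variable {B : Type} [RelAlg B] {n : ℕ}

/-- for all -/
def all (φ : Fm (n + 1)) : Fm n := neg (ex (neg φ))

/-- implication -/
def imp (φ ψ : Fm n) : Fm n := neg (and φ (neg ψ))

/-- disjunction -/
def or (φ ψ : Fm n) : Fm n := neg (and (neg φ) (neg ψ))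

/-- `s ≤ t` -/
def le (s t : Tm (Fin n)) : Fm n := eq (.sup s t) t

theorem holds_all (φ : Fm (n + 1)) (x : Fin n → B) :
    (all φ).Holds B x ↔ ∀ y, φ.Holds B (Fin.cons y x) := by
  show ¬ (∃ y, ¬ φ.Holds B (Fin.cons y x)) ↔ _
  push Not
  rfl

theorem holds_imp (φ ψ : Fm n) (x : Fin n → B) :
    (imp φ ψ).Holds B x ↔ (φ.Holds B x → ψ.Holds B x) := by
  show ¬ (φ.Holds B x ∧ ¬ ψ.Holds B x) ↔ _
  tauto

theorem holds_or (φ ψ : Fm n) (x : Fin n → B) :
    (or φ ψ).Holds B x ↔ (φ.Holds B x ∨ ψ.Holds B x) := by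
  show ¬ (¬ φ.Holds B x ∧ ¬ ψ.Holds B x) ↔ _
  tauto

theorem holds_le (s t : Tm (Fin n)) (x : Fin n → B) :
    (le s t).Holds B x ↔ s.val B x ≤ t.val B x := by
  show s.val B x ⊔ t.val B x = t.val B x ↔ _
  exact sup_eq_right

theorem holds_eq (s t : Tm (Fin n)) (x : Fin n → B) :
    (eq s t).Holds B x ↔ s.val B x = t.val B x := Iff.rfl

theorem holds_neg (φ : Fm n) (x : Fin n → B) : (neg φ).Holds B x ↔ ¬ φ.Holds B x := Iff.rfl

theorem holds_and (φ ψ : Fm n) (x : Fin n → B) :
    (and φ ψ).Holds B x ↔ (φ.Holds B x ∧ ψ.Holds B x) := Iff.rfl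

theorem holds_ex (φ : Fm (n + 1)) (x : Fin n → B) :
    (ex φ).Holds B x ↔ ∃ y, φ.Holds B (Fin.cons y x) := Iff.rfl

/-- the variable `i` is an atom -/
def atomF (i : Fin n) : Fm n := and (neg (eq (.var i) .zero))
  (all (imp (le (.var 0) (.var i.succ)) (or (eq (.var 0) .zero) (eq (.var 0) (.var i.succ)))))

theorem holds_atomF (i : Fin n) (x : Fin n → B) : (atomF i).Holds B x ↔ IsAtom (x i) := by
  have h1 : (atomF i).Holds B x ↔ (x i ≠ ⊥ ∧ ∀ y, y ≤ x i → (y = ⊥ ∨ y = x i)) := by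
    unfold atomF
    rw [holds_and, holds_all]
    refine and_congr Iff.rfl (forall_congr' fun y => ?_)
    rw [holds_imp, holds_or, holds_le]
    exact Iff.rfl
  rw [h1]
  constructor
  · rintro ⟨h2, h3⟩
    refine ⟨h2, fun y hy => (h3 y hy.le).resolve_right hy.ne⟩
  · intro h
    exact ⟨h.1, fun y hy => h.le_iff.1 hy⟩

/-- simple -/
def simpleF : Fm 0 := all (imp (neg (eq (.var 0) .zero))
  (eq (.comp (.comp .one (.var 0)) .one) .one))

/-- atomic -/
def atomicF : Fm 0 := all (imp (neg (eq (.var 0) .zero))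
  (ex (and (atomF 0) (le (.var 0) (.var (Fin.succ 0))))))

/-- powers -/
def pwT {V : Type} (e g : Tm V) : ℕ → Tm V
  | 0 => e
  | n + 1 => .comp (pwT e g n) g

/-- sums of powers -/
def smT {V : Type} (e g : Tm V) : ℕ → Tm V
  | 0 => .zero
  | n + 1 => .sup (smT e g n) (pwT e g n)

theorem val_pwT {V : Type} (e g : Tm V) (x : V → B) (n : ℕ) :
    (pwT e g n).val B x = pw (e.val B x) (g.val B x) n := by
  induction n with
  | zero => rfl
  | succ n ih => show comp _ _ = comp _ _; rw [ih]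

theorem val_smT {V : Type} (e g : Tm V) (x : V → B) (n : ℕ) :
    (smT e g n).val B x = sm (e.val B x) (g.val B x) n := by
  induction n with
  | zero => rfl
  | succ n ih => show _ ⊔ _ = _ ⊔ _; rw [ih, val_pwT]

/-- `e` -/
def te : Tm (Fin 2) := .var (Fin.succ 0)

/-- `g` -/
def tg : Tm (Fin 2) := .var 0

/-- the last condition -/
def fnF : Fm 2 := all (imp (and (atomF 0) (le (.var 0) (.comp (.var (Fin.succ (Fin.succ 0))) .one)))
  (le (.comp (.conv (.var 0)) (.var 0)) .ide))

/-- the conditions on `e` and `g` -/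
def baseF (p : ℕ) : Fm 2 := and (atomF (Fin.succ 0)) (and (le te .ide)
  (and (eq (.comp tg (.conv tg)) te) (and (eq (.comp (.conv tg) tg) te)
  (and (eq (pwT te tg p) te) (and (eq (.comp (.comp te .one) te) (smT te tg p)) fnF)))))

theorem holds_baseF (p : ℕ) (e g : B) (x : Fin 0 → B) :
    (baseF p).Holds B (Fin.cons g (Fin.cons e x)) ↔ Base B p e g := by
  have hte : te.val B (Fin.cons g (Fin.cons e x)) = e := rfl
  have htg : tg.val B (Fin.cons g (Fin.cons e x)) = g := rfl
  unfold baseF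
  simp only [holds_and, holds_atomF, holds_le, holds_eq, val_pwT, val_smT, hte, htg]
  have hfn : fnF.Holds B (Fin.cons g (Fin.cons e x)) ↔
      ∀ r : B, IsAtom r → r ≤ comp e ⊤ → comp (conv r) r ≤ ide := by
    unfold fnF
    rw [holds_all]
    refine forall_congr' fun r => ?_
    rw [holds_imp, holds_and, holds_atomF, holds_le, holds_le, and_imp]
    exact Iff.rfl
  rw [hfn]
  constructor
  · rintro ⟨h1, h2, h3, h4, h5, h6, h7⟩
    exact ⟨h1, h2, h3, h4, h5, h6, h7⟩
  · intro h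
    exact ⟨h.atom, h.le, h.g1, h.g2, h.gp, h.full, h.fn⟩

/-- the sentence -/
def goodF (p : ℕ) : Fm 0 := and simpleF (and atomicF (ex (ex (baseF p))))

theorem holds_goodF (p : ℕ) (x : Fin 0 → B) : (goodF p).Holds B x ↔
    Simple B ∧ Atomic B ∧ ∃ e g, Base B p e g := by
  unfold goodF
  rw [holds_and, holds_and, holds_ex]
  refine and_congr ?_ (and_congr ?_ (exists_congr fun e => ?_))
  · unfold simpleF
    rw [holds_all]
    refine forall_congr' fun y => ?_
    rw [holds_imp]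
    exact Iff.rfl
  · unfold atomicF
    rw [holds_all]
    refine forall_congr' fun y => ?_
    rw [holds_imp, holds_ex]
    refine imp_congr Iff.rfl (exists_congr fun z => ?_)
    rw [holds_and, holds_atomF, holds_le]
    exact Iff.rfl
  · rw [holds_ex]
    exact exists_congr fun g => holds_baseF p e g x

end Fm

theorem star_of_inK {p : ℕ} {B : Type} [RelAlg B] (h : InK p B) : InStar p B := by
  obtain ⟨A, _, _, f, hc, hv, hi⟩ := h
  exact ⟨A, inferInstance, inferInstance, f, f.injective, fun x y => map_sup f x y,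
    fun x => map_compl' f x, hc, hv, hi, fun R _ => f.surjective R⟩

theorem good_of_star {p : ℕ} (hp : p.Prime) {B : Type} [RelAlg B] (h : InStar p B) :
    (Fm.goodF p).Holds B Fin.elim0 := by
  have : Fact p.Prime := ⟨hp⟩
  obtain ⟨A, hAne, _, F, hinj, hsup, hcompl, hc, hv, hi, horb⟩ := h
  have hmono : ∀ b c, b ≤ c → F b ≤ F c := by
    intro b c hbc
    have := hsup b c
    rw [sup_eq_right.2 hbc] at this
    rw [this]
    exact le_sup_left
  have hle : ∀ b c, F b ≤ F c → b ≤ c := by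
    intro b c hbc
    have := hsup b c
    rw [sup_eq_right.2 hbc] at this
    exact sup_eq_right.1 (hinj this)
  have hbot : F ⊥ = ⊥ := by
    have h3 : F ⊥ ≤ F ⊤ := hmono _ _ bot_le
    have h4 : F ⊥ ≤ F ⊥ᶜ := by rw [compl_bot]; exact h3
    rw [hcompl] at h4
    have h5 := le_inf le_rfl h4
    rwa [inf_compl_eq_bot, le_bot_iff] at h5
  have htop : F ⊤ = ⊤ := by
    have := hcompl ⊥
    rwa [compl_bot, hbot, compl_bot] at this
  have hne : ∀ x, x ≠ ⊥ → F x ≠ ⊥ := fun x hx h => hx (hinj (by rw [h, hbot]))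
  have hat : ∀ t, IsAtom (F t) → IsAtom t := by
    intro t ht
    refine ⟨fun h => ht.1 (by rw [h, hbot]), fun y hy => ?_⟩
    have h1 : F y < F t := lt_of_le_of_ne (hmono _ _ hy.le) fun h => hy.ne (hinj h)
    exact hinj (by rw [ht.2 _ h1, hbot])
  have hta : ∀ t, IsAtom t → IsAtom (F t) := by
    intro t ht
    obtain ⟨x, y, hxy⟩ := exists_mem (hne t ht.1)
    obtain ⟨u, hu⟩ := horb _ (isAtom_orb x y)
    have h1 : u ≤ t := hle _ _ (by rw [hu]; exact orb_le hxy)
    have h2 : u ≠ ⊥ := fun h => (isAtom_orb (G := Multiplicative (ZMod p)) x y).1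
      (by rw [← hu, h, hbot])
    rw [← (ht.le_iff.1 h1).resolve_left h2, hu]
    exact isAtom_orb x y
  have hpw : ∀ e g n, F (pw e g n) = pw (F e) (F g) n := by
    intro e g n
    induction n with
    | zero => rfl
    | succ n ih => show F (comp _ _) = comp _ _; rw [hc, ih]
  have hsm : ∀ e g n, F (sm e g n) = sm (F e) (F g) n := by
    intro e g n
    induction n with
    | zero => exact hbot
    | succ n ih => show F (_ ⊔ _) = _ ⊔ _; rw [hsup, ih, hpw]
  rw [Fm.holds_goodF]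
  refine ⟨?_, ?_, ?_⟩
  · intro x hx
    apply hinj
    rw [hc, hc, htop]
    exact simple_rel _ (hne x hx)
  · intro x hx
    obtain ⟨a, b, hab⟩ := exists_mem (hne x hx)
    obtain ⟨t, ht⟩ := horb _ (isAtom_orb a b)
    refine ⟨t, hat t (by rw [ht]; exact isAtom_orb a b), hle _ _ ?_⟩
    rw [ht]
    exact orb_le hab
  · obtain ⟨e', g', hb, hg'⟩ := base_rel (p := p) (A := A)
    obtain ⟨e, rfl⟩ := horb _ hb.atom
    obtain ⟨g, rfl⟩ := horb _ hg'
    refine ⟨e, g, hat _ hb.atom, hle _ _ (by rw [hi]; exact hb.le), hinj ?_, hinj ?_, hinj ?_,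
      hinj ?_, ?_⟩
    · rw [hc, hv]; exact hb.g1
    · rw [hc, hv]; exact hb.g2
    · rw [hpw]; exact hb.gp
    · rw [hc, hc, htop, hsm]; exact hb.full
    · intro r hr hre
      refine hle _ _ ?_
      rw [hc, hv, hi]
      refine hb.fn _ (hta r hr) ?_
      have := hmono _ _ hre
      rwa [hc, htop] at this

theorem main3 (p : ℕ) (hp : p.Prime) (B : Type) [RelAlg B] :
    InStar p B ↔ (Fm.goodF p).Holds B Fin.elim0 := by
  have : NeZero p := ⟨hp.ne_zero⟩
  constructor
  · exact good_of_star hp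
  · intro h
    rw [Fm.holds_goodF] at h
    obtain ⟨hS, hA, e, g, hb⟩ := h
    exact star_of_base hS hA hb

theorem main2 (p : ℕ) (hp : p.Prime) (B : Type) [RelAlg B] :
    InK p B ↔ Complete B ∧ (Fm.goodF p).Holds B Fin.elim0 := by
  constructor
  · intro h
    exact ⟨h.complete, good_of_star hp (star_of_inK h)⟩
  · rintro ⟨hC, h⟩
    exact inK_of_star hC ((main3 p hp B).2 h)

end Pool.Agent.H313RA
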